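import Mathlib

set_option autoImplicit false

open Set Topology TopologicalSpace

namespace Pool.Agent.Lib.MP_a014e7_gt

/-- Closing-off: a countable set closed under a countable-valued function of finite subsets. -/
theorem closing_off {X : Type*} (F : Set X → Set X)
    (hF : ∀ s : Set X, s.Finite → (F s).Countable) (D0 : Set X) (h0 : D0.Countable) :
    ∃ D : Set X, D0 ⊆ D ∧ D.Countable ∧ ∀ s : Set X, s.Finite → s ⊆ D → F s ⊆ D := by
  classical
  let step : Set X → Set X := fun E => E ∪ ⋃ s ∈ {s : Set X | s.Finite ∧ s ⊆ E}, F s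
  have hstep : ∀ E : Set X, E.Countable → (step E).Countable := by
    intro E hE
    refine hE.union ?_
    exact (Set.countable_ofPred_finite_subset hE).biUnion (fun s hs => hF s hs.1)
  let D : ℕ → Set X := fun k => Nat.rec D0 (fun _ E => step E) k
  have hD0 : D 0 = D0 := rfl
  have hDs : ∀ k, D (k + 1) = step (D k) := fun k => rfl
  have hDc : ∀ k, (D k).Countable := by
    intro k
    induction k with
    | zero => rw [hD0]; exact h0
    | succ k ih => rw [hDs]; exact hstep _ ih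
  have hmono : Monotone D := by
    refine monotone_nat_of_le_succ ?_
    intro k
    rw [hDs]
    exact subset_union_left
  refine ⟨⋃ k, D k, ?_, countable_iUnion hDc, ?_⟩
  · rw [← hD0]
    exact subset_iUnion D 0
  · intro s hs hsD
    obtain ⟨k, hk⟩ : ∃ k, s ⊆ D k := by
      induction s, hs using Set.Finite.induction_on with
      | empty => exact ⟨0, empty_subset _⟩
      | @insert a t _ _ ih =>
        obtain ⟨k, hk⟩ := ih (fun x hx => hsD (mem_insert_of_mem _ hx))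
        obtain ⟨j, hj⟩ := mem_iUnion.1 (hsD (mem_insert a t))
        refine ⟨max j k, ?_⟩
        intro x hx
        rcases hx with rfl | hx
        · exact hmono (le_max_left _ _) hj
        · exact hmono (le_max_right _ _) (hk hx)
    intro x hx
    refine mem_iUnion.2 ⟨k + 1, ?_⟩
    rw [hDs]
    right
    exact mem_biUnion (show s ∈ {s : Set X | s.Finite ∧ s ⊆ D k} from ⟨hs, hk⟩) hx

variable {X : Type*} [TopologicalSpace X]

/-- If every countable subset of `C` has compact closure and the space has a point-countable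
family of open sets which separates points in the `T1` sense, then `C` has compact closure. -/
theorem isCompact_closure_of_countable (𝒰 : Set (Set X)) (hopen : ∀ U ∈ 𝒰, IsOpen U)
    (hpc : ∀ x : X, {U : Set X | U ∈ 𝒰 ∧ x ∈ U}.Countable)
    (hsep : ∀ x y : X, x ≠ y → ∃ U ∈ 𝒰, x ∈ U ∧ y ∉ U)
    (C : Set X) (hC : ∀ A ⊆ C, A.Countable → IsCompact (closure A)) :
    IsCompact (closure C) := by
  classical
  let US : Set X → Set (Set X) := fun s => ⋃ x ∈ s, {U : Set X | U ∈ 𝒰 ∧ x ∈ U}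
  have hUS : ∀ s : Set X, s.Finite → (US s).Countable := fun s hs =>
    hs.countable.biUnion (fun x _ => hpc x)
  let pick : Set (Set X) → Set X := fun W =>
    if h : ∃ z : X, z ∈ C ∧ ∀ w ∈ W, z ∉ w then {h.choose} else ∅
  have hpick : ∀ W, (pick W).Countable := by
    intro W
    by_cases h : ∃ z : X, z ∈ C ∧ ∀ w ∈ W, z ∉ w
    · simp only [pick, dif_pos h]; exact countable_singleton _
    · simp only [pick, dif_neg h]; exact countable_empty
  have hpick' : ∀ W : Set (Set X), (∃ z : X, z ∈ C ∧ ∀ w ∈ W, z ∉ w) →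
      ∃ z ∈ pick W, z ∈ C ∧ ∀ w ∈ W, z ∉ w := by
    intro W h
    refine ⟨h.choose, ?_, h.choose_spec⟩
    simp only [pick, dif_pos h]
    exact mem_singleton _
  let F : Set X → Set X := fun s => ⋃ W ∈ {W : Set (Set X) | W.Finite ∧ W ⊆ US s}, pick W
  have hF : ∀ s : Set X, s.Finite → (F s).Countable := fun s hs =>
    (Set.countable_ofPred_finite_subset (hUS s hs)).biUnion (fun W _ => hpick W)
  obtain ⟨D, -, hDc, hD⟩ := closing_off F hF ∅ countable_empty
  have hDcomp : IsCompact (closure (D ∩ C)) :=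
    hC _ inter_subset_right (hDc.mono inter_subset_left)
  have hsub : C ⊆ closure (D ∩ C) := by
    intro z hz
    by_contra hzn
    have hy : ∀ y ∈ closure (D ∩ C), ∃ U ∈ 𝒰, y ∈ U ∧ z ∉ U := by
      intro y hy
      exact hsep y z (fun h => hzn (h ▸ hy))
    choose! U hU𝒰 hyU hzU using hy
    have hd : ∀ y ∈ closure (D ∩ C), ∃ d, d ∈ U y ∧ d ∈ D ∩ C := by
      intro y hy
      exact mem_closure_iff.1 hy _ (hopen _ (hU𝒰 y hy)) (hyU y hy)
    choose! d hdU hdD using hd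
    obtain ⟨τ, hτ, hcov⟩ := hDcomp.elim_nhds_subcover U
      (fun y hy => (hopen _ (hU𝒰 y hy)).mem_nhds (hyU y hy))
    have hW : U '' (τ : Set X) ∈ {W : Set (Set X) | W.Finite ∧ W ⊆ US (d '' (τ : Set X))} := by
      refine ⟨τ.finite_toSet.image _, ?_⟩
      rintro _ ⟨y, hy, rfl⟩
      have hy' := hτ y hy
      exact mem_biUnion (mem_image_of_mem d hy) ⟨hU𝒰 y hy', hdU y hy'⟩
    obtain ⟨w, hwp, hwC, hwU⟩ := hpick' (U '' (τ : Set X)) ⟨z, hz, by
      rintro _ ⟨y, hy, rfl⟩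
      exact hzU y (hτ y hy)⟩
    have hwD : w ∈ D := by
      refine hD (d '' (τ : Set X)) (τ.finite_toSet.image _) ?_ (mem_biUnion hW hwp)
      rintro _ ⟨y, hy, rfl⟩
      exact (hdD y (hτ y hy)).1
    have hwcl : w ∈ closure (D ∩ C) := subset_closure ⟨hwD, hwC⟩
    obtain ⟨y, hyτ, hwy⟩ := mem_iUnion₂.1 (hcov hwcl)
    exact hwU _ (mem_image_of_mem U hyτ) hwy
  exact hDcomp.of_isClosed_subset isClosed_closure (closure_minimal hsub isClosed_closure)

/-- Chains of small connected open sets inside an open connected set. -/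
theorem exists_chain [LocallyConnectedSpace X] (O : X → Set X) (hO : ∀ x, IsOpen (O x))
    (hxO : ∀ x, x ∈ O x) {C : Set X} (hCo : IsOpen C) (hC : IsPreconnected C) {q : X}
    (hq : q ∈ C) {q' : X} (hq' : q' ∈ C) :
    ∃ A : Set X, A.Countable ∧ ∃ T : Set X, IsPreconnected T ∧ q ∈ T ∧ q' ∈ T ∧
      T ⊆ C ∩ ⋃ x ∈ A, O x := by
  classical
  let Z : Set X := {z | ∃ A : Set X, A.Countable ∧ ∃ T : Set X, IsPreconnected T ∧ q ∈ T ∧
    z ∈ T ∧ T ⊆ C ∩ ⋃ x ∈ A, O x}
  have hloc : ∀ z ∈ C, ∃ W : Set X, IsOpen W ∧ IsPreconnected W ∧ z ∈ W ∧ W ⊆ C ∩ O z := by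
    intro z hz
    refine ⟨connectedComponentIn (C ∩ O z) z, (hCo.inter (hO z)).connectedComponentIn,
      isPreconnected_connectedComponentIn, mem_connectedComponentIn ⟨hz, hxO z⟩,
      connectedComponentIn_subset _ _⟩
  have hstep : ∀ z w v : X, ∀ W : Set X, IsPreconnected W → W ⊆ C ∩ O z → w ∈ W → v ∈ W →
      w ∈ Z → v ∈ Z := by
    rintro z w v W hWp hWs hwW hvW ⟨A, hA, T, hT, hqT, hwT, hTs⟩
    refine ⟨insert z A, hA.insert z, T ∪ W, hT.union w hwT hwW hWp, Or.inl hqT, Or.inr hvW, ?_⟩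
    rintro x (hx | hx)
    · refine ⟨(hTs hx).1, ?_⟩
      obtain ⟨y, hy, hxy⟩ := mem_iUnion₂.1 (hTs hx).2
      exact mem_iUnion₂.2 ⟨y, mem_insert_of_mem _ hy, hxy⟩
    · exact ⟨(hWs hx).1, mem_iUnion₂.2 ⟨z, mem_insert _ _, (hWs hx).2⟩⟩
  have hZC : Z ⊆ C := by
    rintro z ⟨A, hA, T, hT, hqT, hzT, hTs⟩
    exact (hTs hzT).1
  have hZo : IsOpen Z := by
    refine isOpen_iff_mem_nhds.2 ?_
    intro z hz
    obtain ⟨W, hWo, hWp, hzW, hWs⟩ := hloc z (hZC hz)
    refine Filter.mem_of_superset (hWo.mem_nhds hzW) ?_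
    intro v hv
    exact hstep z z v W hWp hWs hzW hv hz
  have hqZ : q ∈ Z := by
    refine ⟨{q}, countable_singleton q, {q}, isPreconnected_singleton, mem_singleton q,
      mem_singleton q, ?_⟩
    rintro x rfl
    exact ⟨hq, mem_iUnion₂.2 ⟨x, mem_singleton x, hxO x⟩⟩
  have hsub : C ⊆ Z := by
    refine hC.subset_of_closure_inter_subset hZo ⟨q, hq, hqZ⟩ ?_
    rintro z ⟨hz, hzC⟩
    obtain ⟨W, hWo, hWp, hzW, hWs⟩ := hloc z hzC
    obtain ⟨w, hwW, hwZ⟩ := mem_closure_iff.1 hz W hWo hzW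
    exact hstep z w z W hWp hWs hwW hzW hwZ
  exact hsub hq'

/-- Normality of the union of two open sets separates their two differences. -/
theorem exists_sep {U U' : Set X} (hU : IsOpen U) (hU' : IsOpen U')
    (hn : NormalSpace (U ∪ U' : Set X)) :
    ∃ G H : Set X, IsOpen G ∧ IsOpen H ∧ Disjoint G H ∧ U \ U' ⊆ G ∧ U' \ U ⊆ H := by
  let S : Set X := U ∪ U'
  have hS : IsOpen S := hU.union hU'
  have hA : IsClosed ((Subtype.val : S → X) ⁻¹' U'ᶜ) := hU'.isClosed_compl.preimage continuous_subtype_val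
  have hB : IsClosed ((Subtype.val : S → X) ⁻¹' Uᶜ) := hU.isClosed_compl.preimage continuous_subtype_val
  have hAB : Disjoint ((Subtype.val : S → X) ⁻¹' U'ᶜ) ((Subtype.val : S → X) ⁻¹' Uᶜ) := by
    rw [Set.disjoint_left]
    rintro ⟨x, hx⟩ h1 h2
    rcases hx with hx | hx
    · exact h2 hx
    · exact h1 hx
  have := hn
  obtain ⟨u, v, hu, hv, hAu, hBv, huv⟩ := normal_separation hA hB hAB
  refine ⟨Subtype.val '' u, Subtype.val '' v, hS.isOpenMap_subtype_val _ hu,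
    hS.isOpenMap_subtype_val _ hv, ?_, ?_, ?_⟩
  · exact (Set.disjoint_image_iff Subtype.val_injective).2 huv
  · rintro x ⟨hxU, hxU'⟩
    exact ⟨⟨x, Or.inl hxU⟩, hAu hxU', rfl⟩
  · rintro x ⟨hxU', hxU⟩
    exact ⟨⟨x, Or.inr hxU'⟩, hBv hxU, rfl⟩

/-- The main construction: every point has a clopen neighbourhood covered by countably many of the
sets `O x`. -/
theorem exists_clopen [T2Space X] [LocallyCompactSpace X] [LocallyConnectedSpace X]
    (O : X → Set X) (hO : ∀ x, IsOpen (O x)) (hxO : ∀ x, x ∈ O x)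
    (hsep2 : ∀ x, SeparableSpace (O x))
    (hn : ∀ s : Set X, IsOpen s → NormalSpace s)
    (𝒰 : Set (Set X)) (hopen : ∀ U ∈ 𝒰, IsOpen U)
    (hpc : ∀ x : X, {U : Set X | U ∈ 𝒰 ∧ x ∈ U}.Countable)
    (hsep : ∀ x y : X, x ≠ y → ∃ U ∈ 𝒰, x ∈ U ∧ y ∉ U) (x0 : X) :
    ∃ D : Set X, D.Countable ∧ x0 ∈ D ∧ IsClosed (⋃ x ∈ D, O x) := by
  classical
  -- countable dense sets in the small open sets
  have hE : ∀ x, ∃ E : Set X, E.Countable ∧ E ⊆ O x ∧ O x ⊆ closure E := by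
    intro x
    have := hsep2 x
    obtain ⟨E, hE, hEd⟩ := TopologicalSpace.exists_countable_dense (O x)
    refine ⟨Subtype.val '' E, hE.image _, ?_, ?_⟩
    · rintro _ ⟨y, hy, rfl⟩
      exact y.2
    · intro y hy
      have h1 : (⟨y, hy⟩ : O x) ∈ closure E := hEd _
      have h2 := image_closure_subset_closure_image (f := (Subtype.val : O x → X))
        continuous_subtype_val (s := E)
      exact h2 ⟨_, h1, rfl⟩
  choose E hEc hEO hOE using hE
  -- separating pairs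
  have hGH : ∀ U U' : Set X, ∃ G H : Set X, U ∈ 𝒰 → U' ∈ 𝒰 →
      IsOpen G ∧ IsOpen H ∧ Disjoint G H ∧ U \ U' ⊆ G ∧ U' \ U ⊆ H := by
    intro U U'
    by_cases h : U ∈ 𝒰 ∧ U' ∈ 𝒰
    · obtain ⟨G, H, hh⟩ := exists_sep (hopen U h.1) (hopen U' h.2)
        (hn _ ((hopen U h.1).union (hopen U' h.2)))
      exact ⟨G, H, fun _ _ => hh⟩
    · exact ⟨∅, ∅, fun h1 h2 => absurd ⟨h1, h2⟩ h⟩
  choose G H hGH using hGH
  let US : Set X → Set (Set X) := fun s => ⋃ x ∈ s, {U : Set X | U ∈ 𝒰 ∧ x ∈ U}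
  have hUS : ∀ s : Set X, s.Finite → (US s).Countable := fun s hs =>
    hs.countable.biUnion (fun x _ => hpc x)
  let P : Set X → Set (Set (Set X × Set X)) := fun s => {t | t.Finite ∧ t ⊆ US s ×ˢ US s}
  have hP : ∀ s : Set X, s.Finite → (P s).Countable := fun s hs =>
    Set.countable_ofPred_finite_subset ((hUS s hs).prod (hUS s hs))
  let V : Set (Set X × Set X) → Set X := fun t => ⋂ p ∈ t, G p.1 p.2
  let Cc : Set (Set X × Set X) → X → Set X := fun t q => connectedComponentIn (V t) q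
  -- witnesses
  have hA1 : ∀ C : Set X, ∃ A : Set X, A.Countable ∧
      ((∃ A' : Set X, A'.Countable ∧ C ⊆ ⋃ x ∈ A', O x) → C ⊆ ⋃ x ∈ A, O x) := by
    intro C
    by_cases h : ∃ A' : Set X, A'.Countable ∧ C ⊆ ⋃ x ∈ A', O x
    · obtain ⟨A', hA', hC⟩ := h
      exact ⟨A', hA', fun _ => hC⟩
    · exact ⟨∅, countable_empty, fun h' => absurd h' h⟩
  choose A1 hA1c hA1 using hA1
  have hA2 : ∀ C : Set X, ∃ A : Set X, A.Countable ∧ A ⊆ C ∧
      ((∃ A' : Set X, A'.Countable ∧ A' ⊆ C ∧ ¬ IsCompact (closure A')) →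
        ¬ IsCompact (closure A)) := by
    intro C
    by_cases h : ∃ A' : Set X, A'.Countable ∧ A' ⊆ C ∧ ¬ IsCompact (closure A')
    · obtain ⟨A', hA', hC, hn⟩ := h
      exact ⟨A', hA', hC, fun _ => hn⟩
    · exact ⟨∅, countable_empty, empty_subset _, fun h' => absurd h' h⟩
  choose A2 hA2c hA2C hA2 using hA2
  have hA3 : ∀ (C : Set X) (q q' : X), ∃ A : Set X, A.Countable ∧
      ((∃ A' : Set X, A'.Countable ∧ ∃ T : Set X, IsPreconnected T ∧ q ∈ T ∧ q' ∈ T ∧
        T ⊆ C ∩ ⋃ x ∈ A', O x) →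
        ∃ T : Set X, IsPreconnected T ∧ q ∈ T ∧ q' ∈ T ∧ T ⊆ C ∩ ⋃ x ∈ A, O x) := by
    intro C q q'
    by_cases h : ∃ A' : Set X, A'.Countable ∧ ∃ T : Set X, IsPreconnected T ∧ q ∈ T ∧ q' ∈ T ∧
        T ⊆ C ∩ ⋃ x ∈ A', O x
    · obtain ⟨A', hA', hT⟩ := h
      exact ⟨A', hA', fun _ => hT⟩
    · exact ⟨∅, countable_empty, fun h' => absurd h' h⟩
  choose A3 hA3c hA3 using hA3
  let F : Set X → Set X := fun s => (⋃ x ∈ s, E x) ∪
    ⋃ t ∈ P s, ⋃ q ∈ s, ((A1 (Cc t q) ∪ A2 (Cc t q)) ∪ ⋃ q' ∈ s, A3 (Cc t q) q q')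
  have hF : ∀ s : Set X, s.Finite → (F s).Countable := by
    intro s hs
    refine (hs.countable.biUnion (fun x _ => hEc x)).union ?_
    refine (hP s hs).biUnion (fun t _ => hs.countable.biUnion (fun q _ => ?_))
    exact ((hA1c _).union (hA2c _)).union (hs.countable.biUnion (fun q' _ => hA3c _ _ _))
  obtain ⟨D, hD0, hDc, hD⟩ := closing_off F hF {x0} (countable_singleton x0)
  refine ⟨D, hDc, hD0 (mem_singleton x0), ?_⟩
  set N : Set X := ⋃ x ∈ D, O x with hN
  have hNo : IsOpen N := isOpen_biUnion (fun x _ => hO x)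
  have hDN : D ⊆ N := fun x hx => mem_iUnion₂.2 ⟨x, hx, hxO x⟩
  -- D is dense in N
  have hdense : ∀ W : Set X, IsOpen W → (W ∩ N).Nonempty → (W ∩ D).Nonempty := by
    rintro W hW ⟨w, hwW, hwN⟩
    obtain ⟨x, hx, hwx⟩ := mem_iUnion₂.1 hwN
    obtain ⟨e, heW, heE⟩ := mem_closure_iff.1 (hOE x hwx) (W ∩ O x) (hW.inter (hO x)) ⟨hwW, hwx⟩
    refine ⟨e, heW.1, ?_⟩
    refine hD {x} (finite_singleton x) (singleton_subset_iff.2 hx) (Or.inl ?_)
    exact mem_iUnion₂.2 ⟨x, mem_singleton x, heE⟩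
  have hdense' : ∀ p ∈ closure N, ∀ W : Set X, IsOpen W → p ∈ W → (W ∩ D).Nonempty := by
    intro p hp W hW hpW
    exact hdense W hW (mem_closure_iff.1 hp W hW hpW)
  refine isClosed_of_closure_subset ?_
  intro p hp
  by_contra hpN
  obtain ⟨K, hK, hKp⟩ := exists_compact_mem_nhds p
  have hKcl : IsClosed K := hK.isClosed
  have hfr : IsCompact (frontier K ∩ closure N) :=
    hK.of_isClosed_subset (isClosed_frontier.inter isClosed_closure)
      (inter_subset_left.trans hKcl.frontier_subset)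
  have hpint : p ∈ interior K := mem_interior_iff_mem_nhds.2 hKp
  have hpfr : p ∉ frontier K := fun h => h.2 hpint
  -- separating pairs for the points of the frontier
  have hpair : ∀ y ∈ frontier K ∩ closure N, ∃ U ∈ 𝒰, ∃ U' ∈ 𝒰, (p ∈ U ∧ y ∉ U) ∧
      (y ∈ U' ∧ p ∉ U') := by
    intro y hy
    have hne : p ≠ y := fun h => hpfr (h ▸ hy.1)
    obtain ⟨U, hU, h1⟩ := hsep p y hne
    obtain ⟨U', hU', h2⟩ := hsep y p hne.symm
    exact ⟨U, hU, U', hU', h1, h2⟩
  choose! U hU𝒰 U' hU'𝒰 hUU' hUU'2 using hpair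
  have hd : ∀ y ∈ frontier K ∩ closure N, ∃ d ∈ D, d ∈ U y := by
    intro y hy
    obtain ⟨d, hd1, hd2⟩ := hdense' p hp (U y) (hopen _ (hU𝒰 y hy)) (hUU' y hy).1
    exact ⟨d, hd2, hd1⟩
  have hd' : ∀ y ∈ frontier K ∩ closure N, ∃ d ∈ D, d ∈ U' y := by
    intro y hy
    obtain ⟨d, hd1, hd2⟩ := hdense' y hy.2 (U' y) (hopen _ (hU'𝒰 y hy)) (hUU'2 y hy).1
    exact ⟨d, hd2, hd1⟩
  choose! d hdD hdU using hd
  choose! d' hd'D hd'U using hd'
  obtain ⟨τ, hτ, hcov⟩ := hfr.elim_nhds_subcover (fun y => H (U y) (U' y)) (by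
    intro y hy
    obtain ⟨-, h2, -, -, h5⟩ := hGH (U y) (U' y) (hU𝒰 y hy) (hU'𝒰 y hy)
    exact h2.mem_nhds (h5 ⟨(hUU'2 y hy).1, (hUU' y hy).2⟩))
  set t : Set (Set X × Set X) := (fun y => (U y, U' y)) '' (τ : Set X) with ht
  have htfin : t.Finite := τ.finite_toSet.image _
  have hVo : IsOpen (V t) := by
    refine htfin.isOpen_biInter ?_
    rintro _ ⟨y, hy, rfl⟩
    exact (hGH (U y) (U' y) (hU𝒰 y (hτ y hy)) (hU'𝒰 y (hτ y hy))).1
  have hpV : p ∈ V t := by
    refine mem_iInter₂.2 ?_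
    rintro _ ⟨y, hy, rfl⟩
    obtain ⟨-, -, -, h4, -⟩ := hGH (U y) (U' y) (hU𝒰 y (hτ y hy)) (hU'𝒰 y (hτ y hy))
    exact h4 ⟨(hUU' y (hτ y hy)).1, (hUU'2 y (hτ y hy)).2⟩
  have hVfr : ∀ z ∈ V t, z ∈ N → z ∉ frontier K := by
    intro z hzV hzN hzfr
    obtain ⟨y, hy, hzy⟩ := mem_iUnion₂.1 (hcov ⟨hzfr, subset_closure hzN⟩)
    obtain ⟨-, -, h3, -, -⟩ := hGH (U y) (U' y) (hU𝒰 y (hτ y hy)) (hU'𝒰 y (hτ y hy))
    have hzG : z ∈ G (U y) (U' y) := mem_iInter₂.1 hzV (U y, U' y) (mem_image_of_mem _ hy)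
    exact Set.disjoint_left.1 h3 hzG hzy
  set s0 : Set X := d '' (τ : Set X) ∪ d' '' (τ : Set X) with hs0
  have hs0fin : s0.Finite := (τ.finite_toSet.image _).union (τ.finite_toSet.image _)
  have hs0D : s0 ⊆ D := by
    rintro _ (⟨y, hy, rfl⟩ | ⟨y, hy, rfl⟩)
    · exact hdD y (hτ y hy)
    · exact hd'D y (hτ y hy)
  have htP : ∀ s : Set X, s0 ⊆ s → t ∈ P s := by
    intro s hs
    refine ⟨htfin, ?_⟩
    rintro _ ⟨y, hy, rfl⟩
    refine ⟨?_, ?_⟩
    · exact mem_iUnion₂.2 ⟨d y, hs (Or.inl (mem_image_of_mem _ hy)),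
        hU𝒰 y (hτ y hy), hdU y (hτ y hy)⟩
    · exact mem_iUnion₂.2 ⟨d' y, hs (Or.inr (mem_image_of_mem _ hy)),
        hU'𝒰 y (hτ y hy), hd'U y (hτ y hy)⟩
  -- the component of p
  set C : Set X := connectedComponentIn (V t) p with hC
  have hCo : IsOpen C := hVo.connectedComponentIn
  have hpC : p ∈ C := mem_connectedComponentIn hpV
  have hCV : C ⊆ V t := connectedComponentIn_subset _ _
  have hCpre : IsPreconnected C := isPreconnected_connectedComponentIn
  obtain ⟨q, ⟨hqC, hqK⟩, hqD⟩ := hdense' p hp (C ∩ interior K) (hCo.inter isOpen_interior)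
    ⟨hpC, hpint⟩
  have hCcq : ∀ z ∈ C, Cc t z = C := by
    intro z hz
    exact (connectedComponentIn_eq hz).symm
  -- points of D in C lie in K
  have hCDK : C ∩ D ⊆ K := by
    rintro q' ⟨hq'C, hq'D⟩
    have hA : A3 C q q' ⊆ D := by
      refine Subset.trans ?_ (hD (s0 ∪ {q, q'}) (hs0fin.union (by simp)) ?_)
      · intro x hx
        refine Or.inr (mem_iUnion₂.2 ⟨t, htP _ subset_union_left, mem_iUnion₂.2 ⟨q,
          Or.inr (mem_insert _ _), Or.inr (mem_iUnion₂.2 ⟨q', Or.inr (by simp), ?_⟩)⟩⟩)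
        rw [hCcq q hqC]
        exact hx
      · rintro x (hx | hx)
        · exact hs0D hx
        · rcases hx with rfl | hx
          · exact hqD
          · rw [mem_singleton_iff] at hx
            rw [hx]; exact hq'D
    obtain ⟨T, hT, hqT, hq'T, hTs⟩ := hA3 C q q'
      (exists_chain O hO hxO hCo hCpre hqC hq'C)
    have hTN : T ⊆ C ∩ N := by
      intro x hx
      refine ⟨(hTs hx).1, ?_⟩
      obtain ⟨a, ha, hxa⟩ := mem_iUnion₂.1 (hTs hx).2
      exact mem_iUnion₂.2 ⟨a, hA ha, hxa⟩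
    have hTK : T ⊆ interior K := by
      refine IsPreconnected.subset_left_of_subset_union isOpen_interior hKcl.isOpen_compl
        ?_ ?_ ⟨q, hqT, hqK⟩ hT
      · exact Set.disjoint_left.2 (fun x hx hx' => hx' (interior_subset hx))
      · intro x hx
        by_cases hxK : x ∈ K
        · left
          by_contra hxi
          exact hVfr x (hCV (hTN hx).1) (hTN hx).2 ⟨subset_closure hxK, hxi⟩
        · right; exact hxK
    exact interior_subset (hTK hq'T)
  have hAq : A1 C ∪ A2 C ⊆ D := by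
    refine Subset.trans ?_ (hD (s0 ∪ {q}) (hs0fin.union (by simp)) ?_)
    · intro x hx
      refine Or.inr (mem_iUnion₂.2 ⟨t, htP _ subset_union_left, mem_iUnion₂.2 ⟨q,
          Or.inr (mem_singleton q), Or.inl ?_⟩⟩)
      rw [hCcq q hqC]
      exact hx
    · rintro x (hx | hx)
      · exact hs0D hx
      · rw [mem_singleton_iff] at hx
        rw [hx]; exact hqD
  -- every countable subset of C has compact closure
  have hCcount : ∀ A ⊆ C, A.Countable → IsCompact (closure A) := by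
    intro A hAC hAcount
    by_contra hA
    refine hA2 C ⟨A, hAcount, hAC, hA⟩ ?_
    refine hK.of_isClosed_subset isClosed_closure (closure_minimal ?_ hKcl)
    intro x hx
    exact hCDK ⟨hA2C C hx, hAq (Or.inr hx)⟩
  have hCcomp : IsCompact (closure C) :=
    isCompact_closure_of_countable 𝒰 hopen hpc hsep C hCcount
  -- hence C is covered by finitely many O x
  have hCA : ∃ A' : Set X, A'.Countable ∧ C ⊆ ⋃ x ∈ A', O x := by
    obtain ⟨σ, -, hσ⟩ := hCcomp.elim_nhds_subcover O (fun x _ => (hO x).mem_nhds (hxO x))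
    exact ⟨(σ : Set X), σ.countable_toSet, subset_closure.trans (by simpa using hσ)⟩
  have hCN : C ⊆ N := by
    intro x hx
    obtain ⟨a, ha, hxa⟩ := mem_iUnion₂.1 (hA1 C hCA hx)
    exact mem_iUnion₂.2 ⟨a, hAq (Or.inl ha), hxa⟩
  exact hpN (hCN hpC)

end Pool.Agent.Lib.MP_a014e7_gt
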