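import Mathlib
import Pool.Agent.Lib.MP_a014e7_gt.Main

set_option autoImplicit false

open Set Topology TopologicalSpace

namespace Pool.Agent.Lib.MP_a014e7_gt

variable {X : Type*} [TopologicalSpace X]

/-- A set covered by countably many open second countable sets is second countable. -/
theorem secondCountable_of_cover (O : X → Set X) (hO : ∀ x, IsOpen (O x))
    (hsc : ∀ x, SecondCountableTopology (O x)) (D : Set X) (hD : D.Countable) (S : Set X)
    (hS : S ⊆ ⋃ x ∈ D, O x) : SecondCountableTopology S := by
  have : Countable D := hD.to_subtype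
  let U : D → Set S := fun x => (Subtype.val : S → X) ⁻¹' O x
  have hU : ∀ x, IsOpen (U x) := fun x => (hO x).preimage continuous_subtype_val
  have hUc : ∀ x, SecondCountableTopology (U x) := by
    intro x
    have := hsc x
    let g : U x → O (x : X) := fun z => ⟨z.1.1, z.2⟩
    have hg : IsInducing g := by
      have h1 : IsInducing (fun z : U x => (z.1.1 : X)) :=
        IsInducing.subtypeVal.comp IsInducing.subtypeVal
      exact IsInducing.of_comp (Continuous.subtype_mk h1.continuous _) continuous_subtype_val h1
    exact hg.secondCountableTopology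
  refine secondCountableTopology_of_countable_cover hU ?_
  rw [eq_univ_iff_forall]
  rintro ⟨y, hy⟩
  obtain ⟨x, hx, hyx⟩ := mem_iUnion₂.1 (hS hy)
  exact mem_iUnion.2 ⟨⟨x, hx⟩, hyx⟩

/-- A locally connected space all of whose connected components are metrizable is metrizable. -/
theorem metrizable_of_components [LocallyConnectedSpace X]
    (h : ∀ x : X, MetrizableSpace (connectedComponent x)) : MetrizableSpace X := by
  classical
  let K : ConnectedComponents X → Set X := fun c => {x : X | (x : ConnectedComponents X) = c}
  have hKx : ∀ c : ConnectedComponents X, ∃ x : X, K c = connectedComponent x := by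
    intro c
    obtain ⟨x, rfl⟩ := ConnectedComponents.surjective_coe c
    refine ⟨x, ?_⟩
    ext y
    show (y : ConnectedComponents X) = x ↔ _
    exact ConnectedComponents.coe_eq_coe'
  have hKo : ∀ c, IsOpen (K c) := by
    intro c
    obtain ⟨x, hx⟩ := hKx c
    rw [hx]
    exact isOpen_connectedComponent
  have hKm : ∀ c, MetrizableSpace (K c) := by
    intro c
    obtain ⟨x, hx⟩ := hKx c
    rw [hx]
    exact h x
  let _ : ∀ c, MetricSpace (K c) := fun c => metrizableSpaceMetric (K c)
  let _ : MetricSpace (Σ c, K c) := Metric.Sigma.metricSpace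
  let e : (Σ c, K c) ≃ X :=
    { toFun := fun z => z.2.1
      invFun := fun x => ⟨(x : ConnectedComponents X), ⟨x, rfl⟩⟩
      left_inv := by
        rintro ⟨c, ⟨x, rfl⟩⟩
        rfl
      right_inv := fun x => rfl }
  have he : Continuous e := continuous_sigma (fun c => continuous_subtype_val)
  have heo : IsOpenMap e := isOpenMap_sigma.2 (fun c => (hKo c).isOpenMap_subtype_val)
  exact (e.toHomeomorphOfContinuousOpen he heo).symm.isEmbedding.metrizableSpace

/-- **Theorem.** A locally compact, locally connected Hausdorff space which is locally second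
countable, all of whose open subspaces are normal, and which has a point-countable family of open
sets separating points in the `T1` sense, is metrizable. -/
theorem metrizable_main [T2Space X] [LocallyCompactSpace X] [LocallyConnectedSpace X]
    (O : X → Set X) (hO : ∀ x, IsOpen (O x)) (hxO : ∀ x, x ∈ O x)
    (hsc : ∀ x, SecondCountableTopology (O x))
    (hn : ∀ s : Set X, IsOpen s → NormalSpace s)
    (𝒰 : Set (Set X)) (hopen : ∀ U ∈ 𝒰, IsOpen U)
    (hpc : ∀ x : X, {U : Set X | U ∈ 𝒰 ∧ x ∈ U}.Countable)
    (hsep : ∀ x y : X, x ≠ y → ∃ U ∈ 𝒰, x ∈ U ∧ y ∉ U) : MetrizableSpace X := by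
  refine metrizable_of_components ?_
  intro x
  obtain ⟨D, hDc, hxD, hcl⟩ := exists_clopen O hO hxO (fun y => by
    have := hsc y; infer_instance) hn 𝒰 hopen hpc hsep x
  have hclopen : IsClopen (⋃ y ∈ D, O y) := ⟨hcl, isOpen_biUnion (fun y _ => hO y)⟩
  have hsub : connectedComponent x ⊆ ⋃ y ∈ D, O y :=
    hclopen.connectedComponent_subset (mem_iUnion₂.2 ⟨x, hxD, hxO x⟩)
  have := secondCountable_of_cover O hO hsc D hDc _ hsub
  infer_instance

end Pool.Agent.Lib.MP_a014e7_gt
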